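import Pool.Agent.Lib.MP_d48993_lc.BAE.Real.Lt3

/-!
# Interface OBJ: the objects of a UC frame (Baire space: the frame has a largest point)

A UC frame `(P, U)` is given. The point `s` knows the point `t` (finding 4106: `s ≻ t`) if
`s ∉ U t`. Objects: `V s` (with its class `A s` of payments), the shares `Y R m` (with the class
`M R` of payments), and generic members `O s` of `A s`. `X J H` is the join of the objects `V s`
(`s ∈ J`), `O s` (`s ∉ J`) and `Y R m` (`(R, m) ∈ H`).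
-/

set_option autoImplicit false

namespace Pool.Agent.Lib.MP_d48993_lc.Ba.Real

open Pool.Agent.Lib.MP_d48993_lc.Bound

variable {P : Type} [PartialOrder P]

/-- Every class which contains `X` contains `Z`. -/
def Le (X Z : ℕ → ℕ) : Prop := ∀ y, IsC ∅ y → X ∈ y → Z ∈ y

/-- `J` is closed: it contains what its points know. -/
def Cl (U : P → Set P) (J : Set P) : Prop := ∀ s ∈ J, ∀ s', s ∉ U s' → s' ∈ J

/-- `H` contains all shares of `R`. -/
def Full (H : Set (Set P × P)) (R : Set P) : Prop :=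
  Good R ∧ ∀ m, Maximal (· ∈ lowerBounds R) m → (R, m) ∈ H

/-- The pattern `(J, H)` pays for the shares of `R`. -/
inductive PM (J : Set P) (H : Set (Set P × P)) : Set P → Prop
  | mk (R : Set P) (t : P) (ht : t ∉ lowerBounds R) (hJ : ∀ s ∈ J, t ≤ s)
      (h : ∀ R' m, R' ⊂ R → Kn t (R', m) → (R', m) ∉ H → PM J H R') : PM J H R

/-- The patterns of the kind `b`. -/
structure Pat (U : P → Set P) (b : P) (J : Set P) (H : Set (Set P × P)) : Prop where
  up : ∀ s ∈ J, b ≤ s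
  cl : Cl U J
  sh : ∀ j ∈ H, IsSh j ∧ b ∈ lowerBounds j.1
  np : ∀ j ∈ H, ¬ PM J H j.1
  nf : ∀ R, ¬ Full H R
  kn : ∀ j, Kn b j → j ∉ H → PM J H j.1

/-- The classes of the shares. -/
def FF (M : Set P → Set (ℕ → ℕ)) (Y : Set P → P → ℕ → ℕ) (R : Set P) (m : P) : Set (ℕ → ℕ) :=
  Up {Y R m} ∪ M R

/-- The pattern of all that is above `c` or known to `c`. -/
def Xc (X : Set P → Set (Set P × P) → ℕ → ℕ) (c : P) : ℕ → ℕ := X (Set.Ici c) {j | Kn c j}

/-- Interface OBJ (for the Baire lattice): the objects of the frame `(P, U)`. -/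
structure Obj (U : P → Set P) (A : P → Set (ℕ → ℕ)) (M : Set P → Set (ℕ → ℕ))
    (O V : P → ℕ → ℕ) (Y : Set P → P → ℕ → ℕ) (X : Set P → Set (Set P × P) → ℕ → ℕ)
    (la : Set P → P) : Prop where
  top : ∃ τ : P, ∀ s, s ≤ τ
  clsA : ∀ s, IsC ∅ (A s)
  clsW : ∀ s, IsC ∅ (Up {V s} ∪ A s)
  clsF : ∀ R m, IsSh (R, m) → IsC ∅ (FF M Y R m)
  /-- the payments for the shares of `R` -/
  meq : ∀ R, Good R → M R = {W | ∃ t, t ∉ lowerBounds R ∧ W ∈ EE A (FF M Y) (· ⊂ R) t}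
  /-- all shares of `R` together compute a member of all classes `A s` -/
  full : ∀ R Z, Good R → (∀ m, Maximal (· ∈ lowerBounds R) m → Red (Y R m) Z) → ∀ s, Z ∈ A s
  nc : ∀ s, ¬ Red (V s) (fun _ => 0)
  oA : ∀ s, O s ∈ A s
  -- `X J H` is the join of its objects
  xo : ∀ J H s, s ∉ J → Red (O s) (X J H)
  xv : ∀ J H s, s ∈ J → Red (V s) (X J H)
  xy : ∀ J H R m, IsSh (R, m) → (R, m) ∈ H → Red (Y R m) (X J H)
  xl : ∀ J H Z, (∀ s, s ∉ J → Red (O s) Z) → (∀ s ∈ J, Red (V s) Z) →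
    (∀ R m, IsSh (R, m) → (R, m) ∈ H → Red (Y R m) Z) → Red (X J H) Z
  /-- HIT -/
  hit : ∀ b J H, Pat U b J H → ∀ W, (∀ s ∈ J, Red (V s) W) → (∀ s, s ∉ J → W ∈ A s) →
    (∀ R m, (R, m) ∈ H → Red (Y R m) W) → Le (X J H) W
  /-- removal of `V s` -/
  rem : ∀ s J H, s ∉ J → Cl U J → Cl U (insert s J) → (∀ j ∈ H, IsSh j) → (∀ R, ¬ Full H R) →
    Le (X (insert s J) H) (X J H)
  /-- removal of a share; the last share of `R` is removed before the others -/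
  rsh : ∀ R m J H, IsSh (R, m) → (R, m) ∉ H → Cl U J → (∀ j ∈ H, IsSh j) →
    (∀ R', ¬ Full (insert (R, m) H) R') → (m ≠ la R → (R, la R) ∉ H) →
    (∀ s ∈ J, ∀ r ∈ lowerBounds R, s ∈ U r) → X J H ∈ M R → Le (X J (insert (R, m) H)) (X J H)
  /-- the list of `V s` -/
  list : ∀ s b J H y, s ∉ U b → Pat U b J H → IsC ∅ y → X J H ∉ y →
    ∀ Z, Red (V s) Z → Z ∈ y → Z ∈ A s
  /-- KILL -/
  kill : ∀ c s, c ≤ s → Xc X c ∈ A s → ∃ y b J H, s ∉ U b ∧ Pat U b J H ∧ IsC ∅ y ∧ X J H ∉ y ∧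
    Xc X c ∈ y

end Pool.Agent.Lib.MP_d48993_lc.Ba.Real
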