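import Pool.Agent.Lib.MP_d48993_lc.BAE.Real.Obj

/-!
# Removal of all points and of all shares (Baire space)

The points are removed first. The pattern without points pays for the shares of every `R` at the
largest point of the frame; so the shares are removed one after another, the last share of a group
first.
-/

set_option autoImplicit false

namespace Pool.Agent.Lib.MP_d48993_lc.Ba.Real

open Pool.Agent.Lib.MP_d48993_lc.Bound

namespace Objb

variable {P : Type} [PartialOrder P] {U : P → Set P} {A : P → Set (ℕ → ℕ)}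
  {F : Set P → P → Set (ℕ → ℕ)} {M : Set P → Set (ℕ → ℕ)}
  {X : Set P → Set (Set P × P) → ℕ → ℕ} {la : Set P → P}

theorem le_trans' {X Y Z : ℕ → ℕ} (h : Le X Y) (h' : Le Y Z) : Le X Z :=
  fun y hy hX => h' y hy (h y hy hX)

theorem knows_lt' (hU : UCF P U) {s t : P} (h : s ∉ U t) : s < t := by
  by_contra h1
  exact h (hU.off t s h1)

/-- The largest point is not a lower bound of a good set. -/
theorem top_lb {τ : P} (hτ : ∀ s, s ≤ τ) {R : Set P} (hR : Good R) : τ ∉ lowerBounds R := by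
  intro h
  obtain ⟨⟨G, -, hG⟩, h1⟩ := hR
  refine h1 τ (Set.Subset.antisymm (fun r hr => h hr) fun r hr => ?_)
  obtain rfl : r = τ := le_antisymm (hτ r) hr
  rw [hG]
  exact fun g _ => hτ g

/-- The payment at the largest point. -/
theorem ee_top {τ : P} (hτ : ∀ s, s ≤ τ) {p : Set P → Prop} {W : ℕ → ℕ} (hW : ∀ s, W ∈ A s) :
    W ∈ EE A F p τ :=
  ⟨fun s _ => hW s, fun _ _ _ hK => (top_lb hτ hK.1.1 hK.2.1).elim⟩

/-- All points are removed. -/
theorem rem_pts [Finite P] (hU : UCF P U)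
    (hrem : ∀ s J H, s ∉ J → Cl U J → Cl U (insert s J) → (∀ j ∈ H, IsSh j) →
      (∀ R, ¬ Full H R) → Le (X (insert s J) H) (X J H))
    {H : Set (Set P × P)} (hH : ∀ j ∈ H, IsSh j) (hF : ∀ R, ¬ Full H R) (n : ℕ) :
    ∀ J : Set P, Cl U J → J.ncard = n → Le (X J H) (X ∅ H) := by
  induction n with
  | zero =>
    intro J _ h3
    have h4 : J = ∅ := (Set.ncard_eq_zero (Set.toFinite _)).1 h3
    rw [h4]
    exact fun _ _ hX => hX
  | succ n ih =>
    intro J h2 h3
    have h4 : J.Nonempty := by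
      rw [Set.nonempty_iff_ne_empty]
      intro h4
      rw [h4, Set.ncard_empty] at h3
      exact Nat.succ_ne_zero n h3.symm
    obtain ⟨s, hs⟩ := (Set.toFinite J).exists_minimal h4
    have h5 : insert s (J \ {s}) = J := by
      rw [Set.insert_sdiff_singleton, Set.insert_eq_of_mem hs.1]
    have h6 : Cl U (J \ {s}) := by
      intro a ha b hab
      refine ⟨h2 a ha.1 b hab, fun hb => ?_⟩
      obtain rfl : b = s := hb
      have hlt := knows_lt' hU hab
      exact absurd (hs.2 ha.1 hlt.le) (not_le_of_gt hlt)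
    have h8 := ih (J \ {s}) h6 (by rw [Set.ncard_sdiff_singleton_of_mem hs.1, h3]; rfl)
    refine le_trans' ?_ h8
    have h9 := hrem s (J \ {s}) H (fun hb => hb.2 rfl) h6 (by rw [h5]; exact h2) hH hF
    rwa [h5] at h9

/-- All shares are removed from the patterns without points; they are paid at the largest
point. -/
theorem rem_shs [Finite P]
    (hrsh : ∀ R m J H, IsSh (R, m) → (R, m) ∉ H → Cl U J → (∀ j ∈ H, IsSh j) →
      (∀ R', ¬ Full (insert (R, m) H) R') → (m ≠ la R → (R, la R) ∉ H) →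
      (∀ s ∈ J, ∀ r ∈ lowerBounds R, s ∈ U r) → X J H ∈ M R →
      Le (X J (insert (R, m) H)) (X J H))
    (hpay : ∀ R H, Good R → X ∅ H ∈ M R) (n : ℕ) :
    ∀ H : Set (Set P × P), (∀ j ∈ H, IsSh j) → (∀ R, ¬ Full H R) → H.ncard = n →
      Le (X ∅ H) (X ∅ ∅) := by
  induction n with
  | zero =>
    intro H _ _ h3
    have h4 : H = ∅ := (Set.ncard_eq_zero (Set.toFinite _)).1 h3
    rw [h4]
    exact fun _ _ hX => hX
  | succ n ih =>
    intro H hH hF h3
    have h4 : H.Nonempty := by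
      rw [Set.nonempty_iff_ne_empty]
      intro h4
      rw [h4, Set.ncard_empty] at h3
      exact Nat.succ_ne_zero n h3.symm
    have hch : ∃ R m, (R, m) ∈ H ∧ (m ≠ la R → (R, la R) ∉ H \ {(R, m)}) := by
      by_cases h5 : ∃ R, (R, la R) ∈ H
      · obtain ⟨R, h6⟩ := h5
        exact ⟨R, la R, h6, fun h8 => (h8 rfl).elim⟩
      · obtain ⟨⟨R, m⟩, h6⟩ := h4
        exact ⟨R, m, h6, fun _ h9 => h5 ⟨R, h9.1⟩⟩
    obtain ⟨R, m, h5, h7⟩ := hch
    have h8 : insert (R, m) (H \ {(R, m)}) = H := by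
      rw [Set.insert_sdiff_singleton, Set.insert_eq_of_mem h5]
    refine le_trans' ?_ (ih (H \ {(R, m)}) (fun j hj => hH j hj.1) (fun R' hR' => hF R' ⟨hR'.1,
      fun m' hm' => (hR'.2 m' hm').1⟩) (by rw [Set.ncard_sdiff_singleton_of_mem h5, h3]; rfl))
    have h9 := hrsh R m ∅ (H \ {(R, m)}) (hH _ h5) (fun h => h.2 rfl)
      (fun s hs => (Set.notMem_empty s hs).elim) (fun j hj => hH j hj.1)
      (by rw [h8]; exact hF) h7 (fun s hs => (Set.notMem_empty s hs).elim)
      (hpay R _ (hH _ h5).1)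
    rwa [h8] at h9

/-- All patterns are below the pattern without known objects: the points are removed, then the
shares. -/
theorem rem_allp [Finite P] (hU : UCF P U)
    (hrem : ∀ s J H, s ∉ J → Cl U J → Cl U (insert s J) → (∀ j ∈ H, IsSh j) →
      (∀ R, ¬ Full H R) → Le (X (insert s J) H) (X J H))
    (hrsh : ∀ R m J H, IsSh (R, m) → (R, m) ∉ H → Cl U J → (∀ j ∈ H, IsSh j) →
      (∀ R', ¬ Full (insert (R, m) H) R') → (m ≠ la R → (R, la R) ∉ H) →
      (∀ s ∈ J, ∀ r ∈ lowerBounds R, s ∈ U r) → X J H ∈ M R →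
      Le (X J (insert (R, m) H)) (X J H))
    (hpay : ∀ R H, Good R → X ∅ H ∈ M R)
    {J : Set P} {H : Set (Set P × P)} (hJ : Cl U J) (hH : ∀ j ∈ H, IsSh j)
    (hF : ∀ R, ¬ Full H R) : Le (X J H) (X ∅ ∅) :=
  le_trans' (rem_pts hU hrem hH hF _ J hJ rfl) (rem_shs hrsh hpay _ H hH hF rfl)

end Objb

end Pool.Agent.Lib.MP_d48993_lc.Ba.Real
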